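import Mathlib

namespace Pool.Agent.Results.MP_9c9d6b_nt.Counter

open Polynomial Finset

def Salem (β : ℝ) : Prop :=
  IsIntegral ℤ β ∧ 1 < β ∧ (∀ z : ℂ, aeval z (minpoly ℤ β) = 0 → z ≠ β → ‖z‖ ≤ 1) ∧
    ∃ z : ℂ, aeval z (minpoly ℤ β) = 0 ∧ ‖z‖ = 1

noncomputable def r (β : ℝ) : ℕ → ℝ
  | 0 => 1
  | n + 1 => β * r β n - ⌊β * r β n⌋

noncomputable def c (β : ℝ) (n : ℕ) : ℤ := ⌊β * r β (n - 1)⌋

def Per (β : ℝ) (m p : ℕ) : Prop := 1 ≤ p ∧ ∀ n, 1 ≤ n → c β (n + m) = c β (n + m + p)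

noncomputable def P (β : ℝ) (k : ℕ) : ℤ[X] :=
  X ^ k - ∑ i ∈ range k, C (c β (i + 1)) * X ^ (k - 1 - i)

noncomputable def F : ℤ[X] := X ^ 6 - 10 * X ^ 5 - 6 * X ^ 4 + 3 * X ^ 3 - 6 * X ^ 2 - 10 * X + 1

noncomputable def G : ℤ[X] := X ^ 27 + X ^ 25 - X ^ 24 + 2 * X ^ 20 - X ^ 19 + X ^ 18 - 2 * X ^ 17 +
  X ^ 16 + X ^ 14 + X ^ 13 - X ^ 12 + X ^ 11 - 2 * X ^ 10 + 2 * X ^ 9 - X ^ 8 + 2 * X ^ 7 - X ^ 3 +
  X ^ 2 + 1

theorem F_monic : F.Monic := by unfold F; monicity!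

theorem F_irr : Irreducible F := by
  refine F_monic.irreducible_of_irreducible_map (Int.castRingHom (ZMod 2)) F ?_
  have h : F.map (Int.castRingHom (ZMod 2)) = cyclotomic (3 ^ (1 + 1)) (ZMod 2) := by
    have h2 : (2 : (ZMod 2)[X]) = 0 := CharP.cast_eq_zero _ 2
    rw [cyclotomic_prime_pow_eq_geom_sum Nat.prime_three]
    simp [F, sum_range_succ]
    linear_combination (-5 * X ^ 5 - 3 * X ^ 4 + X ^ 3 - 3 * X ^ 2 - 5 * X) * h2
  rw [h]
  refine ZMod.irreducible_of_dvd_cyclotomic_of_natDegree (n := 3 ^ (1 + 1)) (by norm_num) dvd_rfl ?_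
  rw [natDegree_cyclotomic, ← orderOf_units, ZMod.coe_unitOfCoprime]
  exact ((orderOf_eq_iff (n := 6) (by norm_num)).2 (by decide)).symm

def lo : ℚ := 105477879049865854097411269226026102157634 / 10 ^ 40
def hi : ℚ := 105477879049865854097411269226026102157635 / 10 ^ 40

def L : List ℤ := [10, 5, 8, 2, 1, 8, 2, 10, 2, 0, 0, 9, 5, 5, 2, 4, 8, 3, 9, 1, 7, 6, 10, 1, 10, 2,
  8, 1, 2, 8, 5, 9, 9]

def ivl : ℕ → ℚ × ℚ
  | 0 => (1, 1)
  | n + 1 => (lo * (ivl n).1 - L.getD n 0, hi * (ivl n).2 - L.getD n 0)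

theorem ivl_ok : ∀ n < 33, 0 ≤ (ivl n).1 ∧ (L.getD n 0 : ℚ) ≤ lo * (ivl n).1 ∧
    hi * (ivl n).2 < L.getD n 0 + 1 := by decide +kernel

theorem dig {β : ℝ} (h1 : (lo : ℝ) ≤ β) (h2 : β ≤ hi) (n : ℕ) (hn : n < 33) :
    (((ivl n).1 : ℝ) ≤ r β n ∧ r β n ≤ (ivl n).2) ∧ c β (n + 1) = L.getD n 0 := by
  have h0 : (0 : ℝ) ≤ lo := by norm_num [lo]
  have key : ∀ n < 33, (((ivl n).1 : ℝ) ≤ r β n ∧ r β n ≤ (ivl n).2) →
      ((lo : ℝ) * (ivl n).1 ≤ β * r β n ∧ β * r β n ≤ hi * (ivl n).2) ∧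
        ⌊β * r β n⌋ = L.getD n 0 := by
    intro n hn h
    obtain ⟨k0, k1, k2⟩ := ivl_ok n hn
    have k0 : (0 : ℝ) ≤ (ivl n).1 := by exact_mod_cast k0
    have k1 : ((L.getD n 0 : ℤ) : ℝ) ≤ lo * (ivl n).1 := by exact_mod_cast k1
    have k2 : (hi : ℝ) * (ivl n).2 < (L.getD n 0 : ℤ) + 1 := by exact_mod_cast k2
    have a := mul_le_mul h1 h.1 k0 (h0.trans h1)
    have b := mul_le_mul h2 h.2 (k0.trans h.1) (h0.trans (h1.trans h2))
    exact ⟨⟨a, b⟩, Int.floor_eq_iff.2 ⟨k1.trans a, b.trans_lt k2⟩⟩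
  induction n with
  | zero => exact ⟨by simp [ivl, r], (key 0 hn (by simp [ivl, r])).2⟩
  | succ n ih =>
    obtain ⟨⟨a, b⟩, e⟩ := key n (by omega) (ih (by omega)).1
    have : (((ivl (n + 1)).1 : ℝ) ≤ r β (n + 1) ∧ r β (n + 1) ≤ (ivl (n + 1)).2) := by
      simp only [ivl, r, e]
      push_cast
      constructor <;> linarith
    exact ⟨this, (key _ hn this).2⟩

theorem P_eval (β : ℝ) (k : ℕ) : aeval β (P β k) = r β k := by
  induction k with
  | zero => simp [P, r]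
  | succ k ih =>
    have : P β (k + 1) = X * P β k - C (c β (k + 1)) := by
      have e : ∑ i ∈ range k, C (c β (i + 1)) * X ^ (k + 1 - 1 - i) =
          ∑ i ∈ range k, X * (C (c β (i + 1)) * X ^ (k - 1 - i)) := sum_congr rfl fun i hi => by
        rw [show k + 1 - 1 - i = k - 1 - i + 1 by have := mem_range.1 hi; omega]; ring
      rw [P, P, sum_range_succ, e, ← mul_sum, show k + 1 - 1 - k = 0 by omega]
      ring
    rw [this, r, show ⌊β * r β k⌋ = c β (k + 1) from rfl, ← ih]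
    simp

theorem circ {y : ℝ} (h1 : -2 < y) (h2 : y < 2) {z : ℂ} (h : z ^ 2 - y * z + 1 = 0) : ‖z‖ = 1 := by
  have a := congrArg Complex.re h
  have b := congrArg Complex.im h
  simp [pow_two] at a b
  have : z.im * (2 * z.re - y) = 0 := by linarith
  rw [← sq_eq_sq₀ (norm_nonneg _) zero_le_one, Complex.sq_norm, Complex.normSq_apply]
  rcases mul_eq_zero.1 this with k | k
  · rw [k] at a; nlinarith [sq_nonneg (2 * z.re - y)]
  · have : y = 2 * z.re := by linarith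
    rw [this] at a; linarith

theorem result : ∃ (β : ℝ) (p : ℕ) (Q : ℤ[X]), Salem β ∧ (minpoly ℤ β).natDegree = 6 ∧
    Per β 1 p ∧ IsLeast {m | ∃ q, Per β m q} 1 ∧ IsLeast {q | ∃ m, Per β m q} p ∧
    P β (1 + p) - P β 1 = minpoly ℤ β * Q ∧ Q.reverse ≠ Q := by
  have ivt : ∀ (f : ℝ → ℝ) (a b : ℝ), Continuous f → a ≤ b → f a ≤ 0 → 0 ≤ f b →
      ∃ x, a ≤ x ∧ x ≤ b ∧ f x = 0 := fun f a b hf hab ha hb => by
    obtain ⟨x, hx, e⟩ := intermediate_value_Icc hab hf.continuousOn ⟨ha, hb⟩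
    exact ⟨x, hx.1, hx.2, e⟩
  obtain ⟨β, b1, b2, hβ⟩ := ivt (fun x => x ^ 6 - 10 * x ^ 5 - 6 * x ^ 4 + 3 * x ^ 3 - 6 * x ^ 2 -
    10 * x + 1) lo hi (by fun_prop) (by norm_num [lo, hi]) (by norm_num [lo]) (by norm_num [hi])
  obtain ⟨y, y1, y2, hy⟩ := ivt (fun x => x ^ 3 - 10 * x ^ 2 - 9 * x + 23) (-19 / 10) (-1)
    (by fun_prop) (by norm_num) (by norm_num) (by norm_num)
  obtain ⟨w, w1, w2, hw⟩ := ivt (fun x => -(x ^ 3 - 10 * x ^ 2 - 9 * x + 23)) 1 (19 / 10)
    (by fun_prop) (by norm_num) (by norm_num) (by norm_num)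
  have b0 : 10 < β := lt_of_lt_of_le (by norm_num [lo]) b1
  have hF : aeval β F = 0 := by
    simp only [F, map_add, map_sub, map_mul, map_pow, aeval_X, map_ofNat, map_one]
    exact hβ
  have hint : IsIntegral ℤ β := ⟨F, F_monic, hF⟩
  have hm : minpoly ℤ β = F := eq_of_monic_of_associated (minpoly.monic hint) F_monic
    ((minpoly.irreducible hint).associated_of_dvd F_irr (minpoly.isIntegrallyClosed_dvd hint hF))
  have fac : ∀ z : ℂ, aeval z F = (z - β) * (z - (β⁻¹ : ℝ)) * (z ^ 2 - y * z + 1) *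
      (z ^ 2 - w * z + 1) := by
    have e0 : β * β⁻¹ = 1 := mul_inv_cancel₀ (by linarith)
    have i0 : 0 < β⁻¹ := by positivity
    generalize β⁻¹ = g at e0 i0
    have hx : (β + g) ^ 3 - 10 * (β + g) ^ 2 - 9 * (β + g) + 23 = 0 := by
      apply mul_left_cancel₀ (pow_ne_zero 3 (show β ≠ 0 by linarith))
      linear_combination hβ + (3 * β ^ 4 + 3 * β ^ 2 * (β * g + 1) + ((β * g) ^ 2 + β * g + 1) -
        20 * β ^ 3 - 10 * β * (β * g + 1) - 9 * β ^ 2) * e0
    have e1 : (β + g) ^ 2 + (β + g) * y + y ^ 2 - 10 * (β + g + y) - 9 = 0 := by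
      apply mul_left_cancel₀ (show β + g - y ≠ 0 by linarith)
      linear_combination hx - hy
    have e2 : (β + g) ^ 2 + (β + g) * w + w ^ 2 - 10 * (β + g + w) - 9 = 0 := by
      apply mul_left_cancel₀ (show β + g - w ≠ 0 by linarith)
      linear_combination hx + hw
    have s1 : β + g + y + w = 10 := by
      apply mul_left_cancel₀ (show y - w ≠ 0 by linarith)
      linear_combination e1 - e2
    have s2 : (β + g) * y + (β + g) * w + y * w = -9 := by
      linear_combination (β + g + y) * s1 - e1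
    have s3 : (β + g) * y * w = -23 := by
      linear_combination hx - (β + g) ^ 2 * s1 + (β + g) * s2
    intro z
    have e0 := congrArg ((↑) : ℝ → ℂ) e0
    have s1 := congrArg ((↑) : ℝ → ℂ) s1
    have s2 := congrArg ((↑) : ℝ → ℂ) s2
    have s3 := congrArg ((↑) : ℝ → ℂ) s3
    push_cast at e0 s1 s2 s3
    simp only [F, map_add, map_sub, map_mul, map_pow, aeval_X, map_ofNat, map_one]
    linear_combination (-(z ^ 2 - y * z + 1) * (z ^ 2 - w * z + 1)) * e0 +
      (z ^ 5 + 2 * z ^ 3 + z) * s1 - (z ^ 4 + z ^ 2) * s2 + z ^ 3 * s3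
  have hd := fun n hn => (dig b1 b2 n hn).2
  have hR : P β (1 + 32) - P β 1 = F * G := by
    have e : ∀ k ≤ 33, P β k = X ^ k - ∑ i ∈ range k, C (L.getD i 0) * X ^ (k - 1 - i) :=
      fun k hk => by
        rw [P]
        congr 1
        exact sum_congr rfl fun i hi => by rw [hd i (by have := mem_range.1 hi; omega)]
    rw [e _ le_rfl, e _ (by norm_num)]
    simp [sum_range_succ, L, F, G]
    ring
  have hr : ∀ n, r β (n + 33) = r β (n + 1) := by
    intro n
    induction n with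
    | zero =>
      have := congrArg (aeval β) hR
      rw [map_sub, map_mul, hF, P_eval, P_eval, zero_mul, sub_eq_zero] at this
      exact this
    | succ n ih =>
      change β * r β (n + 33) - ⌊β * r β (n + 33)⌋ = β * r β (n + 1) - ⌊β * r β (n + 1)⌋
      rw [ih]
  have hc : ∀ k n, c β (n + 2 + 32 * k) = c β (n + 2) := by
    intro k n
    induction k with
    | zero => rfl
    | succ k ih =>
      rw [← ih, c, c, show n + 2 + 32 * (k + 1) - 1 = n + 32 * k + 33 by omega, hr,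
        show n + 2 + 32 * k - 1 = n + 32 * k + 1 by omega]
  have hc' : ∀ n, c β (n + 2) = L.getD (n % 32 + 1) 0 := fun n => by
    rw [← hd _ (by omega), ← hc (n / 32) (n % 32)]
    congr 1
    omega
  have per : Per β 1 32 := ⟨by norm_num, fun n hn => by
    obtain ⟨n, rfl⟩ := Nat.exists_eq_add_of_le' hn
    exact (hc 1 n).symm⟩
  refine ⟨β, 32, G, ⟨hint, by linarith, ?_, ?_⟩, by rw [hm]; unfold F; compute_degree!, per,
    ⟨⟨32, per⟩, ?_⟩, ⟨⟨1, per⟩, ?_⟩, by rw [hm, hR], fun h => ?_⟩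
  · intro z hz hne
    rw [hm, fac] at hz
    rcases mul_eq_zero.1 hz with hz | hz
    · rcases mul_eq_zero.1 hz with hz | hz
      · rcases mul_eq_zero.1 hz with hz | hz
        · exact (hne (sub_eq_zero.1 hz)).elim
        · rw [sub_eq_zero.1 hz, Complex.norm_real, Real.norm_of_nonneg (by positivity)]
          exact inv_le_one_of_one_le₀ (by linarith)
      · exact (circ (by linarith) (by linarith) hz).le
    · exact (circ (by linarith) (by linarith) hz).le
  · obtain ⟨u, hu⟩ := IsAlgClosed.exists_eq_mul_self ((w : ℂ) ^ 2 - 4)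
    have : ((w + u) / 2) ^ 2 - w * ((w + u) / 2) + 1 = 0 := by linear_combination (-1 / 4) * hu
    exact ⟨_, by rw [hm, fac, this, mul_zero], circ (by linarith) (by linarith) this⟩
  · rintro m ⟨q, h1, h2⟩
    by_contra hm0
    obtain rfl : m = 0 := by omega
    have : ∀ k, c β (1 + q * k) = c β 1 := fun k => by
      induction k with
      | zero => rfl
      | succ k ih =>
        rw [← ih, mul_add, mul_one, ← add_assoc]
        exact (h2 (1 + q * k) (by omega)).symm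
    have e := this 32
    rw [show 1 + q * 32 = (q * 32 - 1) + 2 by omega, hc', hd 0 (by norm_num),
      show (q * 32 - 1) % 32 = 31 by omega] at e
    simp [L] at e
  · rintro q ⟨m, h1, h2⟩
    by_contra hq
    have : ∀ q < 32, 1 ≤ q → ∃ j < 32, L.getD (j + 1) 0 ≠ L.getD ((j + q) % 32 + 1) 0 := by
      decide +kernel
    obtain ⟨j, hj, hne⟩ := this q (by omega) h1
    have e := h2 (j + 2 + 31 * m) (by omega)
    rw [show j + 2 + 31 * m + m + q = j + q + 32 * m + 2 by ring,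
      show j + 2 + 31 * m + m = j + 32 * m + 2 by ring, hc', hc',
      show (j + 32 * m) % 32 = j by omega, show (j + q + 32 * m) % 32 = (j + q) % 32 by omega] at e
    exact hne e
  · have hG : G.natDegree = 27 := by unfold G; compute_degree!
    letI : Invertible (2 : ℚ) := invertibleOfNonzero two_ne_zero
    have := eval₂_reverse_mul_pow (Int.castRingHom ℚ) (2 : ℚ) G
    rw [h, hG] at this
    simp [G, eval₂_add, eval₂_sub, eval₂_mul, eval₂_pow] at this
    norm_num at this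

end Pool.Agent.Results.MP_9c9d6b_nt.Counter
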